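import Mathlib

set_option autoImplicit false

/-! Linear algebra used for the semicontinuity theorem: adapted bases for a separated filtration,
points separating a finite dimensional space of functions, slow growth. -/

namespace Pool.Agent.W649.ZL

open Module

section lin
variable {R : Type*} [AddCommGroup R] [Module ℂ R]

theorem finrank_inf_ker (V : Submodule ℂ R) [FiniteDimensional ℂ V] (φ : R →ₗ[ℂ] ℂ) (v : R)
    (hv : v ∈ V) (h : φ v ≠ 0) :
    finrank ℂ (V ⊓ LinearMap.ker φ : Submodule ℂ R) + 1 = finrank ℂ V := by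
  have h1 := LinearMap.finrank_range_add_finrank_ker (φ.domRestrict V)
  have h2 : LinearMap.range (φ.domRestrict V) = ⊤ := by
    rw [LinearMap.range_eq_top]
    intro z
    refine ⟨(z / φ v) • ⟨v, hv⟩, ?_⟩
    rw [map_smul, LinearMap.domRestrict_apply, smul_eq_mul, div_mul_cancel₀ _ h]
  have h3 : (V ⊓ LinearMap.ker φ : Submodule ℂ R)
      = (LinearMap.ker (φ.domRestrict V)).map V.subtype := by
    rw [← Submodule.map_comap_subtype]
    rfl
  rw [h3, Submodule.finrank_map_subtype_eq]
  rw [h2, finrank_top, finrank_self] at h1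
  omega

/-- adapted families for a separated filtration -/
theorem exists_adapted (F : ℕ → Submodule ℂ R) (hanti : Antitone F) (hF : ⨅ e, F e = ⊥) :
    ∀ (n : ℕ) (V : Submodule ℂ R) [FiniteDimensional ℂ V], finrank ℂ V = n →
      ∀ e₀ : ℕ, V ≤ F e₀ →
      ∃ (v : Fin n → R) (e : Fin n → ℕ), (∀ b, e₀ ≤ e b) ∧ Monotone e ∧ (∀ b, v b ∈ V) ∧
        (∀ b, v b ∈ F (e b)) ∧
        (∀ (b : Fin n) (c : Fin n → ℂ), (∀ b', b' < b → c b' = 0) →
          ∑ b', c b' • v b' ∈ F (e b + 1) → c b = 0) := by
  intro n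
  induction n with
  | zero =>
    intro V _ _ e₀ _
    exact ⟨fun b => b.elim0, fun b => b.elim0, fun b => b.elim0, fun b => b.elim0,
      fun b => b.elim0, fun b => b.elim0, fun b => b.elim0⟩
  | succ n ih =>
    intro V _ hn e₀ he₀
    -- the largest `e` with `V ≤ F e`
    have hne : ∃ e, ¬ V ≤ F e := by
      by_contra hcon
      push Not at hcon
      have : V ≤ ⊥ := by rw [← hF]; exact le_iInf hcon
      rw [le_bot_iff] at this
      subst this
      simp at hn
    classical
    set N := Nat.find hne with hN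
    have hN1 : ¬ V ≤ F N := Nat.find_spec hne
    have hN2 : ∀ m < N, V ≤ F m := fun m hm => by
      by_contra hcon
      exact Nat.find_min hne hm hcon
    have hN3 : e₀ < N := by
      by_contra hcon
      push Not at hcon
      exact hN1 (he₀.trans (hanti hcon))
    obtain ⟨e1, he1⟩ : ∃ e1, N = e1 + 1 := ⟨N - 1, by omega⟩
    have hV1 : V ≤ F e1 := hN2 e1 (by omega)
    obtain ⟨v0, hv0, hv0'⟩ := SetLike.not_le_iff_exists.1 hN1
    have hv0'' : v0 ∉ V ⊓ F N := fun h => hv0' h.2
    obtain ⟨φ, hφ, hker⟩ := Submodule.exists_le_ker_of_notMem hv0''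
    have hfin := finrank_inf_ker V φ v0 hv0 hφ
    set V1 := (V ⊓ LinearMap.ker φ : Submodule ℂ R) with hV1def
    have hV1V : V1 ≤ V := inf_le_left
    haveI : FiniteDimensional ℂ V1 := Submodule.finiteDimensional_inf_left _ _
    obtain ⟨v, e, h1, h2, h3, h4, h5⟩ := ih V1 (by omega) e1 (hV1V.trans hV1)
    refine ⟨Fin.cons v0 v, Fin.cons e1 e, ?_, ?_, ?_, ?_, ?_⟩
    · intro b
      refine Fin.cases ?_ (fun b => ?_) b
      · rw [Fin.cons_zero]; omega
      · rw [Fin.cons_succ]
        exact le_trans (by omega) (h1 b)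
    · intro a b hab
      induction a using Fin.cases with
      | zero =>
        induction b using Fin.cases with
        | zero => exact le_refl _
        | succ b => rw [Fin.cons_zero, Fin.cons_succ]; exact h1 b
      | succ a =>
        induction b using Fin.cases with
        | zero => exact absurd hab (by simp)
        | succ b =>
          rw [Fin.cons_succ, Fin.cons_succ]
          exact h2 (Fin.succ_le_succ_iff.1 hab)
    · intro b
      refine Fin.cases ?_ (fun b => ?_) b
      · rw [Fin.cons_zero]; exact hv0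
      · rw [Fin.cons_succ]; exact hV1V (h3 b)
    · intro b
      refine Fin.cases ?_ (fun b => ?_) b
      · rw [Fin.cons_zero, Fin.cons_zero]; exact hV1 hv0
      · rw [Fin.cons_succ, Fin.cons_succ]; exact h4 b
    · intro b c hc hmem
      rw [Fin.sum_univ_succ] at hmem
      simp only [Fin.cons_zero, Fin.cons_succ] at hmem
      induction b using Fin.cases with
      | zero =>
        rw [Fin.cons_zero, ← he1] at hmem
        have hw : ∑ b' : Fin n, c b'.succ • v b' ∈ V1 :=
          Submodule.sum_mem _ fun b' _ => V1.smul_mem _ (h3 b')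
        have hmemV : c 0 • v0 + ∑ b' : Fin n, c b'.succ • v b' ∈ V :=
          V.add_mem (V.smul_mem _ hv0) (hV1V hw)
        have h0 : φ (c 0 • v0 + ∑ b' : Fin n, c b'.succ • v b') = 0 := hker ⟨hmemV, hmem⟩
        have h1 : φ (∑ b' : Fin n, c b'.succ • v b') = 0 := hw.2
        rw [map_add, h1, add_zero, map_smul, smul_eq_mul] at h0
        exact (mul_eq_zero.1 h0).resolve_right hφ
      | succ b =>
        have hc0 : c 0 = 0 := hc 0 (Fin.succ_pos b)
        rw [hc0, zero_smul, zero_add, Fin.cons_succ] at hmem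
        exact h5 b (fun b' => c b'.succ) (fun b' hb' => hc _ (Fin.succ_lt_succ_iff.2 hb')) hmem

/-- finitely many points separate a finite dimensional space of functions -/
theorem exists_points {P : Type*} (ev : P → R →ₗ[ℂ] ℂ) :
    ∀ (n : ℕ) (V : Submodule ℂ R) [FiniteDimensional ℂ V], finrank ℂ V ≤ n →
      (∀ f ∈ V, (∀ p, ev p f = 0) → f = 0) →
      ∃ Y : Finset P, Y.card ≤ n ∧ ∀ f ∈ V, (∀ p ∈ Y, ev p f = 0) → f = 0 := by
  classical
  intro n
  induction n with
  | zero =>
    intro V _ hn _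
    refine ⟨∅, by simp, fun f hf _ => ?_⟩
    have : V = ⊥ := Submodule.finrank_eq_zero.1 (by omega)
    rw [this] at hf
    simpa using hf
  | succ n ih =>
    intro V _ hn hV
    by_cases hbot : V = ⊥
    · refine ⟨∅, by simp, fun f hf _ => ?_⟩
      rw [hbot] at hf
      simpa using hf
    · obtain ⟨f, hf, hf0⟩ := Submodule.exists_mem_ne_zero_of_ne_bot hbot
      have : ∃ p, ev p f ≠ 0 := by
        by_contra hcon
        push Not at hcon
        exact hf0 (hV f hf hcon)
      obtain ⟨p, hp⟩ := this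
      have hfin := finrank_inf_ker V (ev p) f hf hp
      haveI : FiniteDimensional ℂ (V ⊓ LinearMap.ker (ev p) : Submodule ℂ R) :=
        Submodule.finiteDimensional_inf_left _ _
      obtain ⟨Y, hY, hY'⟩ := ih (V ⊓ LinearMap.ker (ev p)) (by omega)
        (fun f hf h => hV f hf.1 h)
      refine ⟨insert p Y, (Finset.card_insert_le _ _).trans (by omega), fun g hg h => ?_⟩
      exact hY' g ⟨hg, h p (Finset.mem_insert_self _ _)⟩
        (fun p' hp' => h p' (Finset.mem_insert_of_mem hp'))

end lin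

/-- a function of polynomial growth has steps with ratio close to `1` -/
theorem exists_slow (H : ℕ → ℕ) (k : ℕ) (h1 : ∀ s, 1 ≤ H s) (h2 : ∀ s, H s ≤ (s + 1) ^ k)
    (ε : ℝ) (hε : 0 < ε) : ∃ s, (H (s + 1) : ℝ) ≤ (1 + ε) * H s := by
  by_contra hcon
  push Not at hcon
  have h3 : ∀ s, (1 + ε) ^ s ≤ (H s : ℝ) := by
    intro s
    induction s with
    | zero => simpa using h1 0
    | succ s ih =>
      calc (1 + ε) ^ (s + 1) = (1 + ε) * (1 + ε) ^ s := by ring
        _ ≤ (1 + ε) * H s := by gcongr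
        _ ≤ H (s + 1) := (hcon s).le
  have h4 := tendsto_pow_const_div_const_pow_of_one_lt k (r := 1 + ε) (by linarith)
  have h5 : ∀ᶠ n : ℕ in Filter.atTop, (n : ℝ) ^ k / (1 + ε) ^ n < 1 / (1 + ε) :=
    h4.eventually_lt_const (by positivity)
  obtain ⟨N, hN⟩ := (h5.and (Filter.eventually_ge_atTop 1)).exists
  obtain ⟨hN1, hN2⟩ := hN
  obtain ⟨s, rfl⟩ : ∃ s, N = s + 1 := ⟨N - 1, by omega⟩
  have h6 : (H s : ℝ) ≤ ((s + 1 : ℕ) : ℝ) ^ k := by exact_mod_cast h2 s
  rw [div_lt_div_iff₀ (by positivity) (by positivity), one_mul, pow_succ] at hN1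
  have h7 := h3 s
  have h8 : ((s + 1 : ℕ) : ℝ) ^ k < (1 + ε) ^ s := lt_of_mul_lt_mul_right hN1 (by positivity)
  linarith

end Pool.Agent.W649.ZL
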