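import Mathlib

set_option autoImplicit false

/-! A point avoiding countably many proper hypersurfaces. -/

namespace Pool.Agent.W649.ZL

open MvPolynomial

theorem avoid_fin (n : ℕ) (Q : ℕ → MvPolynomial (Fin n) ℂ) (hQ : ∀ k, Q k ≠ 0) :
    ∃ y : Fin n → ℂ, ∀ k, eval y (Q k) ≠ 0 := by
  induction n with
  | zero =>
    refine ⟨fun i => i.elim0, fun k h => hQ k ?_⟩
    rw [eq_C_of_isEmpty (Q k)] at h ⊢
    rw [eval_C] at h
    rw [h, map_zero]
  | succ n ih =>
    obtain ⟨y, hy⟩ := ih (fun k => (finSuccEquiv ℂ n (Q k)).leadingCoeff) (fun k => by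
      rw [Polynomial.leadingCoeff_ne_zero]
      intro h
      exact hQ k ((map_eq_zero_iff _ (finSuccEquiv ℂ n).injective).1 h))
    have hq : ∀ k, (finSuccEquiv ℂ n (Q k)).map (eval y) ≠ 0 := by
      intro k h
      apply hy k
      have := congrArg (fun p => p.coeff (finSuccEquiv ℂ n (Q k)).natDegree) h
      simpa [Polynomial.coeff_map] using this
    have hcount : (⋃ k, (((finSuccEquiv ℂ n (Q k)).map (eval y)).roots.toFinset : Set ℂ)).Countable :=
      Set.countable_iUnion fun k => Finset.countable_toSet _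
    obtain ⟨t, ht⟩ : ∃ t : ℂ,
        t ∉ (⋃ k, (((finSuccEquiv ℂ n (Q k)).map (eval y)).roots.toFinset : Set ℂ)) := by
      by_contra hcon
      push Not at hcon
      have : (Set.univ : Set ℂ).Countable := hcount.mono (fun t _ => hcon t)
      exact not_countable_complex this
    refine ⟨Fin.cons t y, fun k h => ht ?_⟩
    rw [Set.mem_iUnion]
    refine ⟨k, ?_⟩
    rw [Finset.mem_coe, Multiset.mem_toFinset, Polynomial.mem_roots (hq k), Polynomial.IsRoot.def,
      ← eval_eq_eval_mv_eval']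
    exact h

theorem avoid {Y : Type*} [Fintype Y] (Q : ℕ → MvPolynomial Y ℂ) (hQ : ∀ k, Q k ≠ 0) :
    ∃ y : Y → ℂ, ∀ k, eval y (Q k) ≠ 0 := by
  classical
  let e := Fintype.equivFin Y
  obtain ⟨y, hy⟩ := avoid_fin (Fintype.card Y) (fun k => rename e (Q k)) (fun k h =>
    hQ k ((map_eq_zero_iff _ (rename_injective e e.injective)).1 h))
  refine ⟨fun i => y (e i), fun k h => hy k ?_⟩
  rw [eval_rename]
  exact h

end Pool.Agent.W649.ZL
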