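import Mathlib

set_option autoImplicit false

/-! Zariski closed cones in `ℂ^X × ℂ^Y` which meet `0 × ℂ^Y` only in `0`. -/

namespace Pool.Agent.W649.ZL

open MvPolynomial

section ray
variable {σ : Type*}

/-- restriction of a polynomial to the ray through `z` -/
noncomputable def ray (z : σ → ℂ) : MvPolynomial σ ℂ →ₐ[ℂ] Polynomial ℂ :=
  aeval (fun i => Polynomial.C (z i) * Polynomial.X)

theorem eval_ray (z : σ → ℂ) (f : MvPolynomial σ ℂ) (t : ℂ) :
    (ray z f).eval t = eval (t • z) f := by
  induction f using MvPolynomial.induction_on with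
  | C a => simp [ray]
  | add p q hp hq => rw [map_add, Polynomial.eval_add, hp, hq, map_add]
  | mul_X p i hp =>
    have h1 : ray z (MvPolynomial.X i) = Polynomial.C (z i) * Polynomial.X := by
      rw [ray, aeval_X]
    rw [map_mul, Polynomial.eval_mul, hp, map_mul, h1, eval_X, Polynomial.eval_mul,
      Polynomial.eval_C, Polynomial.eval_X, Pi.smul_apply, smul_eq_mul]
    ring

theorem aeval_ev (z : σ → ℂ) (f : MvPolynomial σ ℂ) : aeval z f = eval z f :=
  DFunLike.congr_fun (coe_aeval_eq_eval z) f

theorem coeff_ray (z : σ → ℂ) (f : MvPolynomial σ ℂ) (k : ℕ) :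
    (ray z f).coeff k = eval z (homogeneousComponent k f) := by
  induction f using MvPolynomial.induction_on' with
  | monomial d a =>
    have h1 : ray z (monomial d a) = Polynomial.C (a * d.prod fun i n => z i ^ n)
        * Polynomial.X ^ d.degree := by
      rw [ray, aeval_monomial]
      simp only [mul_pow]
      rw [Finsupp.prod_mul, Polynomial.C_mul]
      simp only [Finsupp.prod, Finsupp.degree]
      rw [Finset.prod_pow_eq_pow_sum, map_prod]
      simp only [map_pow]
      rw [mul_assoc]
      rfl
    rw [h1, Polynomial.coeff_C_mul_X_pow]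
    by_cases hk : k = d.degree
    · subst hk
      rw [if_pos rfl, homogeneousComponent_of_mem (isHomogeneous_monomial a rfl), if_pos rfl,
        eval_monomial]
    · rw [if_neg hk, homogeneousComponent_of_mem (isHomogeneous_monomial a rfl), if_neg hk,
        map_zero]
  | add p q hp hq => rw [map_add, Polynomial.coeff_add, hp, hq, map_add, map_add]

end ray

section cone
variable {X Y : Type*} [Fintype X] [Fintype Y]

/-- The coordinates of the second factor are integral over the first one. -/
theorem cone_integral (Z : Set (X ⊕ Y → ℂ)) (hcone : ∀ z ∈ Z, ∀ t : ℂ, t • z ∈ Z)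
    (hclosed : zeroLocus ℂ (vanishingIdeal ℂ Z) = Z)
    (hmeet : ∀ z ∈ Z, (∀ x, z (Sum.inl x) = 0) → z = 0) :
    ∃ K : ℕ, 1 ≤ K ∧ ∀ y : Y, ∃ g : X → MvPolynomial (X ⊕ Y) ℂ, (∀ x, (g x).IsHomogeneous (K - 1)) ∧
      ∀ z ∈ Z, z (Sum.inr y) ^ K = ∑ x, z (Sum.inl x) * eval z (g x) := by
  classical
  set I := vanishingIdeal ℂ Z with hI
  set I' := I ⊔ Ideal.span (Set.range (fun x : X => (MvPolynomial.X (Sum.inl x) :
    MvPolynomial (X ⊕ Y) ℂ))) with hI'
  have h1 : ∀ y : Y, ∃ k : ℕ, (MvPolynomial.X (Sum.inr y) : MvPolynomial (X ⊕ Y) ℂ) ^ k ∈ I' := by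
    intro y
    have h2 : (MvPolynomial.X (Sum.inr y) : MvPolynomial (X ⊕ Y) ℂ) ∈ I'.radical := by
      rw [← vanishingIdeal_zeroLocus_eq_radical (K := ℂ)]
      intro z hz
      have hzZ : z ∈ Z := by
        rw [← hclosed]
        exact zeroLocus_anti_mono le_sup_left hz
      have hz0 : ∀ x, z (Sum.inl x) = 0 := by
        intro x
        have := hz (MvPolynomial.X (Sum.inl x)) (Ideal.mem_sup_right (Ideal.subset_span ⟨x, rfl⟩))
        simpa using this
      rw [hmeet z hzZ hz0]
      simp
    exact h2
  choose k hk using h1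
  refine ⟨∑ y, k y + 1, by omega, fun y => ?_⟩
  set K := ∑ y, k y + 1 with hK
  have h3 : (MvPolynomial.X (Sum.inr y) : MvPolynomial (X ⊕ Y) ℂ) ^ K ∈ I' := by
    have hle : k y ≤ K := by
      have := Finset.single_le_sum (f := k) (fun _ _ => Nat.zero_le _) (Finset.mem_univ y)
      omega
    exact Ideal.pow_mem_of_pow_mem _ (hk y) hle
  obtain ⟨f, hf, h, hh, hfh⟩ := Submodule.mem_sup.1 h3
  obtain ⟨c, hc⟩ := Ideal.mem_span_range_iff_exists_fun.1 hh
  refine ⟨fun x => homogeneousComponent (K - 1) (c x), fun x =>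
    homogeneousComponent_isHomogeneous _ _, fun z hz => ?_⟩
  have h4 : ray z f = 0 := by
    apply Polynomial.funext
    intro t
    rw [eval_ray, Polynomial.eval_zero]
    have := hf (t • z) (hcone z hz t)
    rwa [aeval_ev] at this
  have h5 := congrArg (fun p => (ray z p).coeff K) hfh
  simp only [map_add] at h5
  rw [h4, zero_add, ← hc, map_sum, Polynomial.finsetSum_coeff, map_pow] at h5
  have h6 : ray z (MvPolynomial.X (Sum.inr y)) = Polynomial.C (z (Sum.inr y)) * Polynomial.X := by
    rw [ray, aeval_X]
  rw [h6, mul_pow, ← Polynomial.C_pow, Polynomial.coeff_C_mul_X_pow, if_pos rfl] at h5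
  rw [← h5]
  refine Finset.sum_congr rfl fun x _ => ?_
  rw [map_mul]
  have h7 : ray z (MvPolynomial.X (Sum.inl x)) = Polynomial.C (z (Sum.inl x)) * Polynomial.X := by
    rw [ray, aeval_X]
  have h8 : K = (K - 1) + 1 := by omega
  rw [h7, ← coeff_ray, ← mul_assoc, mul_comm (ray z (c x)), mul_assoc]
  conv_lhs => rw [h8]
  rw [Polynomial.coeff_C_mul, Polynomial.coeff_mul_X]

/-- restriction of polynomials to a set -/
noncomputable def rho {σ : Type*} (Z : Set (σ → ℂ)) : MvPolynomial σ ℂ →ₗ[ℂ] (Z → ℂ) where
  toFun f z := eval z.1 f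
  map_add' f g := by ext z; simp
  map_smul' c f := by ext z; simp

/-- the span of the monomials of degree `n` with bounded exponents in the second factor -/
noncomputable def Wsp (Z : Set (X ⊕ Y → ℂ)) (K n : ℕ) : Submodule ℂ (Z → ℂ) :=
  Submodule.span ℂ {f | ∃ e : (X ⊕ Y) →₀ ℕ, e.degree = n ∧ (∀ y, e (Sum.inr y) < K) ∧
    f = rho Z (monomial e 1)}

theorem mono_mem_W (Z : Set (X ⊕ Y → ℂ)) (K : ℕ) (hK : 1 ≤ K)
    (h : ∀ y : Y, ∃ g : X → MvPolynomial (X ⊕ Y) ℂ, (∀ x, (g x).IsHomogeneous (K - 1)) ∧
      ∀ z ∈ Z, z (Sum.inr y) ^ K = ∑ x, z (Sum.inl x) * eval z (g x)) :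
    ∀ (m : ℕ) (e : (X ⊕ Y) →₀ ℕ), ∑ y, e (Sum.inr y) = m →
      rho Z (monomial e 1) ∈ Wsp Z K e.degree := by
  classical
  intro m
  induction m using Nat.strong_induction_on with
  | _ m ih =>
    intro e he
    by_cases hall : ∀ y, e (Sum.inr y) < K
    · exact Submodule.subset_span ⟨e, rfl, hall, rfl⟩
    · push Not at hall
      obtain ⟨y, hy⟩ := hall
      obtain ⟨g, hg1, hg2⟩ := h y
      set e' : (X ⊕ Y) →₀ ℕ := e - Finsupp.single (Sum.inr y) K with he'
      have hee : e = e' + Finsupp.single (Sum.inr y) K := by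
        rw [he', tsub_add_cancel_of_le]
        rw [Finsupp.single_le_iff]
        exact hy
      have hdeg : e.degree = e'.degree + K := by
        rw [hee, map_add, Finsupp.degree_single]
      have hydeg : ∑ y', e (Sum.inr y') = ∑ y', e' (Sum.inr y') + K := by
        rw [hee]
        simp only [Finsupp.add_apply]
        rw [Finset.sum_add_distrib]
        congr 1
        rw [Finset.sum_eq_single y]
        · simp
        · intro b _ hb
          rw [Finsupp.single_apply, if_neg]
          intro hcon
          exact hb (Sum.inr_injective hcon).symm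
        · intro hcon; exact absurd (Finset.mem_univ y) hcon
      have hexp : rho Z (monomial e 1) = ∑ x, ∑ u ∈ (g x).support,
          (g x).coeff u • rho Z (monomial (e' + Finsupp.single (Sum.inl x) 1 + u) 1) := by
        ext z
        have e1 : rho Z (monomial e 1) z = eval z.1 (monomial e' 1) * z.1 (Sum.inr y) ^ K := by
          change eval z.1 (monomial e 1) = _
          rw [hee, ← one_mul (1 : ℂ), ← monomial_mul, map_mul]
          congr 1
          · rw [one_mul]
          · rw [eval_monomial]; simp
        rw [e1, hg2 z.1 z.2, Finset.mul_sum, Finset.sum_apply]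
        refine Finset.sum_congr rfl fun x _ => ?_
        rw [Finset.sum_apply]
        have e2 : eval z.1 (g x) = ∑ u ∈ (g x).support, (g x).coeff u * eval z.1 (monomial u 1) := by
          conv_lhs => rw [(g x).as_sum]
          rw [map_sum]
          refine Finset.sum_congr rfl fun u _ => ?_
          rw [eval_monomial, eval_monomial, one_mul]
        rw [e2, Finset.mul_sum, Finset.mul_sum]
        refine Finset.sum_congr rfl fun u _ => ?_
        have e3 : rho Z (monomial (e' + Finsupp.single (Sum.inl x) 1 + u) 1) z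
            = eval z.1 (monomial e' 1) * z.1 (Sum.inl x) * eval z.1 (monomial u 1) := by
          change eval z.1 (monomial _ 1) = _
          have : (monomial (e' + Finsupp.single (Sum.inl x) 1 + u) (1 : ℂ))
              = monomial e' 1 * monomial (Finsupp.single (Sum.inl x) 1) 1 * monomial u 1 := by
            rw [monomial_mul, monomial_mul]; simp
          rw [this, map_mul, map_mul]
          congr 2
          rw [eval_monomial]; simp
        rw [Pi.smul_apply, e3, smul_eq_mul]
        ring
      rw [hexp]
      apply Submodule.sum_mem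
      intro x _
      apply Submodule.sum_mem
      intro u hu
      apply Submodule.smul_mem
      have hudeg : u.degree = K - 1 := ((hg1 x).degree_eq_sum_deg_support hu).symm
      have hdeg2 : (e' + Finsupp.single (Sum.inl x) 1 + u).degree = e.degree := by
        rw [map_add, map_add, Finsupp.degree_single, hudeg, hdeg]
        omega
      rw [← hdeg2]
      refine ih _ ?_ _ rfl
      have hu2 : ∑ y', u (Sum.inr y') ≤ K - 1 := by
        rw [← hudeg, Finsupp.degree_eq_sum, Fintype.sum_sum_type]
        omega
      have h5 : ∑ y', (e' + Finsupp.single (Sum.inl x) 1 + u : (X ⊕ Y) →₀ ℕ) (Sum.inr y')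
          = ∑ y', e' (Sum.inr y') + ∑ y', u (Sum.inr y') := by
        rw [← Finset.sum_add_distrib]
        refine Finset.sum_congr rfl fun y' _ => ?_
        rw [Finsupp.add_apply, Finsupp.add_apply, Finsupp.single_apply, if_neg (by simp)]
        omega
      rw [h5]
      omega

end cone

end Pool.Agent.W649.ZL
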