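import Pool.Agent.H13.L.S8.W649.ZL.Trace

set_option autoImplicit false
set_option linter.unusedSectionVars false
set_option linter.unusedSimpArgs false

open scoped InnerProductSpace InnerProduct ENNReal

/-! Additivity of the von Neumann dimension. -/

namespace Pool.Agent.W649.ZL

universe u v w

section
variable {G : Type u} {I : Type v} {J : Type w} [Group G]

/-- invariance under right translations -/
def Inv (P : Submodule ℂ (EE G I)) : Prop := ∀ (k : G) (f : EE G I), f ∈ P → tr k f ∈ P

theorem topcl_eq {P : Submodule ℂ (EE G I)} (hP : IsClosed (P : Set (EE G I))) :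
    P.topologicalClosure = P := hP.submodule_topologicalClosure_eq

theorem vd_mono [Fintype J] {P Q : Submodule ℂ (EE G J)} (h : P ≤ Q) : vd P ≤ vd Q := by
  unfold vd
  have h' : P.topologicalClosure ≤ Q.topologicalClosure := Submodule.topologicalClosure_mono h
  refine Finset.sum_le_sum fun j _ => ?_
  have h1 : P.topologicalClosure.starProjection (dl ((1 : G), j))
      = P.topologicalClosure.starProjection
        (Q.topologicalClosure.starProjection (dl ((1 : G), j))) := by
    have := Submodule.starProjection_comp_starProjection_of_le h'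
    rw [← ContinuousLinearMap.comp_apply, this]
  rw [h1]
  gcongr
  exact Submodule.norm_starProjection_apply_le _ _

theorem vd_nonneg [Fintype J] (P : Submodule ℂ (EE G J)) : 0 ≤ vd P := by
  unfold vd
  exact Finset.sum_nonneg fun j _ => by positivity

theorem vd_eq [Fintype J] (P Q : Submodule ℂ (EE G J)) [Q.HasOrthogonalProjection]
    (h : P.topologicalClosure = Q) :
    vd P = ∑ j : J, ‖Q.starProjection (dl ((1 : G), j))‖ ^ 2 := by
  subst h; rfl

theorem vd_closure [Fintype J] (P : Submodule ℂ (EE G J)) :
    vd P.topologicalClosure = vd P := by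
  rw [vd_eq _ _ (topcl_eq P.isClosed_topologicalClosure)]
  rfl

theorem vd_bot [Fintype J] : vd (⊥ : Submodule ℂ (EE G J)) = 0 := by
  have : (⊥ : Submodule ℂ (EE G J)).topologicalClosure = ⊥ := by
    apply topcl_eq; simp
  rw [vd_eq _ _ this]
  simp

theorem vd_top [Fintype J] : vd (⊤ : Submodule ℂ (EE G J)) = Fintype.card J := by
  have : (⊤ : Submodule ℂ (EE G J)).topologicalClosure = ⊤ := by
    apply topcl_eq; simp
  rw [vd_eq _ _ this]
  have h2 : ∀ x : EE G J, (⊤ : Submodule ℂ (EE G J)).starProjection x = x :=
    fun x => Submodule.starProjection_eq_self_iff.2 trivial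
  calc _ = ∑ _j : J, (1 : ℝ) := Finset.sum_congr rfl fun j _ => by rw [h2, norm_dl, one_pow]
    _ = _ := by simp

theorem vd_sub [Fintype J] {P Q : Submodule ℂ (EE G J)} (hP : IsClosed (P : Set (EE G J)))
    (hQ : IsClosed (Q : Set (EE G J))) (h : P ≤ Q) : vd (Q ⊓ Pᗮ) = vd Q - vd P := by
  have hV : IsClosed ((Q ⊓ Pᗮ : Submodule ℂ (EE G J)) : Set (EE G J)) := by
    rw [Submodule.coe_inf]; exact hQ.inter (Submodule.isClosed_orthogonal P)
  unfold vd
  rw [← Finset.sum_sub_distrib]
  refine Finset.sum_congr rfl fun j _ => ?_
  set x := (dl ((1 : G), j) : EE G J)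
  set P' := P.topologicalClosure with hP'
  set Q' := Q.topologicalClosure with hQ'
  have eP : P' = P := topcl_eq hP
  have eQ : Q' = Q := topcl_eq hQ
  set V' := (Q ⊓ Pᗮ : Submodule ℂ (EE G J)).topologicalClosure with hV'
  have eV : V' = Q' ⊓ P'ᗮ := by rw [hV', topcl_eq hV, eP, eQ]
  have hle : P' ≤ Q' := by rw [eP, eQ]; exact h
  have hPQ : P'.starProjection (Q'.starProjection x) = P'.starProjection x := by
    have := Submodule.starProjection_comp_starProjection_of_le hle
    rw [← ContinuousLinearMap.comp_apply, this]
  have h1 : V'.starProjection x = Q'.starProjection x - P'.starProjection x := by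
    apply Submodule.eq_starProjection_of_mem_of_inner_eq_zero
    · rw [eV]
      refine ⟨Q'.sub_mem (Submodule.starProjection_apply_mem _ _)
        (hle (Submodule.starProjection_apply_mem _ _)), ?_⟩
      rw [← hPQ]
      exact Submodule.sub_starProjection_mem_orthogonal _
    · intro w hw
      rw [eV] at hw
      have a1 : ⟪x - Q'.starProjection x, w⟫_ℂ = 0 :=
        Submodule.starProjection_inner_eq_zero x w hw.1
      have a2 : ⟪P'.starProjection x, w⟫_ℂ = 0 :=
        Submodule.inner_right_of_mem_orthogonal (Submodule.starProjection_apply_mem P' x) hw.2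
      have : x - (Q'.starProjection x - P'.starProjection x)
        = (x - Q'.starProjection x) + P'.starProjection x := by abel
      rw [this, inner_add_left, a1, a2, add_zero]
  rw [h1]
  have h2 : ‖Q'.starProjection x‖ ^ 2 = ‖P'.starProjection x‖ ^ 2
      + ‖Q'.starProjection x - P'.starProjection x‖ ^ 2 := by
    have h3 : ⟪P'.starProjection x, Q'.starProjection x - P'.starProjection x⟫_ℂ = 0 := by
      apply Submodule.inner_right_of_mem_orthogonal (Submodule.starProjection_apply_mem P' x)
      rw [← hPQ]
      exact Submodule.sub_starProjection_mem_orthogonal _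
    have h4 := norm_add_sq_eq_norm_sq_add_norm_sq_of_inner_eq_zero _ _ h3
    rw [add_sub_cancel] at h4
    simpa [sq] using h4
  linarith

theorem proj_tr {U : Submodule ℂ (EE G I)} [U.HasOrthogonalProjection] (hU : Inv U) :
    Eqv (U.starProjection) := by
  intro k f
  apply Submodule.eq_starProjection_of_mem_of_inner_eq_zero
  · exact hU k _ (Submodule.starProjection_apply_mem _ _)
  · intro w hw
    have e : tr k f - tr k (U.starProjection f) = tr k (f - U.starProjection f) := by
      ext x; rfl
    rw [e, inner_tr_left]
    exact Submodule.starProjection_inner_eq_zero f _ (hU k⁻¹ w hw)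

theorem Inv.topologicalClosure {U : Submodule ℂ (EE G I)} (hU : Inv U) :
    Inv U.topologicalClosure := by
  intro k f hf
  have hf' : f ∈ closure (U : Set (EE G I)) := by
    rw [← Submodule.topologicalClosure_coe]; exact hf
  have : tr k f ∈ closure (U : Set (EE G I)) := by
    rw [Metric.mem_closure_iff] at hf' ⊢
    intro ε hε
    obtain ⟨b, hb, hd⟩ := hf' ε hε
    refine ⟨tr k b, hU k b hb, ?_⟩
    rw [dist_eq_norm] at hd ⊢
    have e : tr k f - tr k b = tr k (f - b) := by ext x; rfl
    rw [e, norm_tr]; exact hd
  rw [← Submodule.topologicalClosure_coe] at this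
  exact this

/-- Rank–nullity for an equivariant operator on a closed invariant subspace. -/
theorem rank_nullity [Fintype I] [Fintype J] (T : EE G I →L[ℂ] EE G J) (hT : Eqv T)
    {U : Submodule ℂ (EE G I)} (hU : Inv U) (hc : IsClosed (U : Set (EE G I))) :
    vd U = vd (U ⊓ LinearMap.ker (T : EE G I →ₗ[ℂ] EE G J))
      + vd (U.map (T : EE G I →ₗ[ℂ] EE G J)) := by
  have : CompleteSpace U := hc.completeSpace_coe
  set S : EE G I →L[ℂ] EE G J := T.comp U.starProjection with hS
  have hSe : Eqv S := by
    intro k f
    rw [hS, ContinuousLinearMap.comp_apply, ContinuousLinearMap.comp_apply, proj_tr hU, hT]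
  have hrange : LinearMap.range (S : EE G I →ₗ[ℂ] EE G J)
      = U.map (T : EE G I →ₗ[ℂ] EE G J) := by
    ext y
    constructor
    · rintro ⟨x, rfl⟩
      exact ⟨U.starProjection x, Submodule.starProjection_apply_mem _ _, rfl⟩
    · rintro ⟨x, hx, rfl⟩
      refine ⟨x, ?_⟩
      have : U.starProjection x = x := Submodule.starProjection_eq_self_iff.2 hx
      change T (U.starProjection x) = T x
      rw [this]
  have hadj : (LinearMap.range (ContinuousLinearMap.adjoint S : EE G J →ₗ[ℂ] EE G I)).topologicalClosure
      = U ⊓ (U ⊓ LinearMap.ker (T : EE G I →ₗ[ℂ] EE G J))ᗮ := by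
    have h0 := ContinuousLinearMap.orthogonal_ker S
    have h1 : (LinearMap.ker (S : EE G I →ₗ[ℂ] EE G J))ᗮ
        = U ⊓ (U ⊓ LinearMap.ker (T : EE G I →ₗ[ℂ] EE G J))ᗮ := by
      apply le_antisymm
      · intro x hx
        rw [Submodule.mem_orthogonal] at hx
        refine ⟨?_, ?_⟩
        · -- `x ⟂ Uᗮ`
          have h2 : x ∈ Uᗮᗮ := by
            rw [Submodule.mem_orthogonal]
            intro y hy
            apply hx
            change T (U.starProjection y) = 0
            have : U.starProjection y = 0 := (Submodule.starProjection_apply_eq_zero_iff U).2 hy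
            rw [this, map_zero]
          rw [Submodule.orthogonal_orthogonal] at h2
          exact h2
        · change x ∈ (U ⊓ LinearMap.ker (T : EE G I →ₗ[ℂ] EE G J))ᗮ
          rw [Submodule.mem_orthogonal]
          intro y hy
          apply hx
          change T (U.starProjection y) = 0
          have : U.starProjection y = y := Submodule.starProjection_eq_self_iff.2 hy.1
          rw [this]; exact hy.2
      · rintro x ⟨hx1, hx2⟩
        rw [Submodule.mem_orthogonal]
        intro y hy
        have hy' : T (U.starProjection y) = 0 := hy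
        have e : y = U.starProjection y + (y - U.starProjection y) := by abel
        have h3 : ⟪U.starProjection y, x⟫_ℂ = 0 := by
          have hx2' : x ∈ (U ⊓ LinearMap.ker (T : EE G I →ₗ[ℂ] EE G J))ᗮ := hx2
          rw [Submodule.mem_orthogonal] at hx2'
          exact hx2' _ ⟨Submodule.starProjection_apply_mem _ _, hy'⟩
        have h4 : ⟪y - U.starProjection y, x⟫_ℂ = 0 :=
          Submodule.starProjection_inner_eq_zero y x hx1
        rw [e, inner_add_left, h3, h4, add_zero]
    rw [← h1]
    exact h0.symm
  have h1 := vd_range_adjoint S hSe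
  rw [hrange] at h1
  have hclk : IsClosed ((U ⊓ LinearMap.ker (T : EE G I →ₗ[ℂ] EE G J) :
      Submodule ℂ (EE G I)) : Set (EE G I)) := by
    rw [Submodule.coe_inf]
    exact hc.inter (ContinuousLinearMap.isClosed_ker T)
  have h2 := vd_sub hclk hc inf_le_left
  rw [← hadj, vd_closure] at h2
  linarith

end

end Pool.Agent.W649.ZL
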